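import Pool.Agent.L7h28.VC.Ext
import Pool.Agent.Y347.VL.Value

set_option autoImplicit false

/-!
# Project VC, assembly of the first theorem
-/

namespace Pool.Agent.L7h28.VC

open Pool.Agent.H430R2.PermCubes Pool.Agent.Y347.VL Function Finset

/-- the number of linear members that forces all members to be linear -/
def threshold (p m : ℕ) : ℕ := if m = 2 then (p - 3) / 2 else m + (p - 3) / 2

/-- the largest size of a linear variational set of dimension `m` and odd prime order `p` -/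
def maxSize (p m : ℕ) : ℕ := if m = 2 then p - 1 else if p ≤ m then m + 1 else p + 1

theorem value_eq {p m : ℕ} (hp : p.Prime) (hp3 : 3 ≤ p) : value m p = maxSize p m := by
  have hodd : p % 2 = 1 := Nat.odd_iff.1 (hp.odd_of_ne_two (by omega))
  unfold value maxSize
  split_ifs <;> omega

theorem isLinear_of_univ {p m k : ℕ} {C : Fin k → (Fin m → Fin p) → Fin p} [Fact p.Prime]
    {τ : Fin m → (Fin p ≃ ZMod p)} (h : LinearOn p m k C Finset.univ τ) :
    IsLinear (ZMod p) m p k C := by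
  obtain ⟨σ, a, h⟩ := h
  exact ⟨τ, σ, a, fun j x => h j (Finset.mem_univ _) x⟩

theorem greatest {p m : ℕ} [Fact p.Prime] (hp3 : 3 ≤ p) (hm : 2 ≤ m) :
    IsGreatest (Sizes (ZMod p) m p) (maxSize p m) := by
  have hp : p.Prime := Fact.out
  rw [← value_eq hp hp3]
  refine isGreatest_value hm (Nat.card_zmod p) ?_ ?_
  · constructor
    · refine ⟨⊥, Ideal.bot_isMaximal, ?_⟩
      rw [Nat.card_congr (RingEquiv.quotientBot (ZMod p)).toEquiv, Nat.card_zmod]
    · rintro c ⟨M, hM, rfl⟩
      have : M = ⊥ := by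
        rcases Ideal.eq_bot_or_top M with h | h
        · exact h
        · exact absurd h hM.ne_top
      subst this
      rw [Nat.card_congr (RingEquiv.quotientBot (ZMod p)).toEquiv, Nat.card_zmod]
  · have hodd : p % 2 = 1 := Nat.odd_iff.1 (hp.odd_of_ne_two (by omega))
    right; right; left
    refine ⟨hodd, ?_⟩
    rw [hp.minFac_eq]
    exact inRange_prime hp3

/-- the first theorem from the parts -/
theorem main (hE : S_EXT) (p m : ℕ) [Fact p.Prime] (hp3 : 3 ≤ p) (hm : 2 ≤ m) :
    (∀ (k : ℕ) (C : Fin k → (Fin m → Fin p) → Fin p), IsVariationalSet m p k C →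
      ∀ (J : Finset (Fin k)) (τ : Fin m → (Fin p ≃ ZMod p)), LinearOn p m k C J τ →
        threshold p m ≤ J.card → LinearOn p m k C Finset.univ τ ∧ k ≤ maxSize p m) ∧
    (threshold p m ≤ maxSize p m →
      IsGreatest {k : ℕ | ∃ (C : Fin k → (Fin m → Fin p) → Fin p) (J : Finset (Fin k))
        (τ : Fin m → (Fin p ≃ ZMod p)), IsVariationalSet m p k C ∧ LinearOn p m k C J τ ∧
          threshold p m ≤ J.card} (maxSize p m)) := by
  have h1 : ∀ (k : ℕ) (C : Fin k → (Fin m → Fin p) → Fin p), IsVariationalSet m p k C →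
      ∀ (J : Finset (Fin k)) (τ : Fin m → (Fin p ≃ ZMod p)), LinearOn p m k C J τ →
        threshold p m ≤ J.card → LinearOn p m k C Finset.univ τ ∧ k ≤ maxSize p m := by
    intro k C hC J τ hl hJ
    have h2 := hE p m k hp3 hm C hC J τ hl hJ
    exact ⟨h2, (greatest hp3 hm).2 ⟨C, hC, isLinear_of_univ h2⟩⟩
  refine ⟨h1, fun ht => ⟨?_, ?_⟩⟩
  · obtain ⟨C, hC, τ, σ, a, h⟩ := (greatest (p := p) (m := m) hp3 hm).1
    refine ⟨C, Finset.univ, τ, hC, ⟨σ, a, fun j _ x => h j x⟩, ?_⟩
    rwa [Finset.card_univ, Fintype.card_fin]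
  · rintro k ⟨C, J, τ, hC, hl, hJ⟩
    exact (h1 k C hC J τ hl hJ).2

end Pool.Agent.L7h28.VC
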