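import Pool.Agent.L7h28.VC.Stm

set_option autoImplicit false

/-!
# Project VC, part EXT: one more member is linear too
-/

namespace Pool.Agent.L7h28.VC

open Pool.Agent.H430R2.PermCubes Pool.Agent.Y347.VL Function Finset

section

variable {p m k : ℕ} [Fact p.Prime] {C : Fin k → (Fin m → Fin p) → Fin p}

/-- the relabelling of the cells -/
def cell (τ : Fin m → (Fin p ≃ ZMod p)) (y : Fin m → ZMod p) : Fin m → Fin p :=
  fun i => (τ i).symm (y i)

theorem cell_inj (τ : Fin m → (Fin p ≃ ZMod p)) {y y' : Fin m → ZMod p}
    (h : cell τ y = cell τ y') : y = y' := by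
  funext i
  exact (τ i).symm.injective (congrFun h i)

theorem cell_update (τ : Fin m → (Fin p ≃ ZMod p)) (y : Fin m → ZMod p) (i : Fin m) (t : ZMod p) :
    cell τ (update y i t) = update (cell τ y) i ((τ i).symm t) := by
  funext l
  unfold cell
  by_cases hl : l = i
  · subst hl; simp
  · simp [update_of_ne hl]

theorem inj_of (hC : IsVariationalSet m p k C) (τ : Fin m → (Fin p ≃ ZMod p))
    (e : Fin m → Fin k) (he : Injective e) {y y' : Fin m → ZMod p}
    (h : ∀ l, C (e l) (cell τ y) = C (e l) (cell τ y')) : y = y' := by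
  apply cell_inj τ
  exact (hC.2 e he).1 (funext h)

theorem perm_inj (hC : IsVariationalSet m p k C) (τ : Fin m → (Fin p ≃ ZMod p)) (r : Fin k)
    (i : Fin m) (y : Fin m → ZMod p) {s t : ZMod p}
    (h : C r (cell τ (update y i s)) = C r (cell τ (update y i t))) : s = t := by
  rw [cell_update, cell_update] at h
  exact (τ i).symm.injective ((hC.1 r i (cell τ y)).1 h)

theorem update_inj {α β : Type*} [DecidableEq α] {e : α → β} (he : Injective e) (i : α) {b : β}
    (hb : ∀ l, l ≠ i → e l ≠ b) : Injective (update e i b) := by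
  intro x y h
  by_cases hx : x = i <;> by_cases hy : y = i
  · rw [hx, hy]
  · subst hx
    rw [update_self, update_of_ne hy] at h
    exact absurd h.symm (hb y hy)
  · subst hy
    rw [update_self, update_of_ne hx] at h
    exact absurd h (hb x hx)
  · rw [update_of_ne hx, update_of_ne hy] at h
    exact he h

/-- the kernel of two proportional forms -/
theorem exists_kernel {F : Type*} [Field F] (w w' : F × F) (h : w.1 * w'.2 = w.2 * w'.1) :
    ∃ s t : F, (s ≠ 0 ∨ t ≠ 0) ∧ w.1 * s + w.2 * t = 0 ∧ w'.1 * s + w'.2 * t = 0 := by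
  by_cases h1 : w.1 = 0 ∧ w.2 = 0
  · by_cases h2 : w'.1 = 0 ∧ w'.2 = 0
    · exact ⟨1, 0, Or.inl one_ne_zero, by rw [h1.1]; ring, by rw [h2.1]; ring⟩
    · refine ⟨w'.2, -w'.1, ?_, by rw [h1.1, h1.2]; ring, by ring⟩
      by_contra hc
      push Not at hc
      exact h2 ⟨neg_eq_zero.1 hc.2, hc.1⟩
  · refine ⟨w.2, -w.1, ?_, by ring, by linear_combination -h⟩
    by_contra hc
    push Not at hc
    exact h1 ⟨neg_eq_zero.1 hc.2, hc.1⟩

end

/-- dimension two -/
theorem ext_two (hT : S_TWO) {p k : ℕ} [Fact p.Prime] (hp : 3 ≤ p)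
    {C : Fin k → (Fin 2 → Fin p) → Fin p} (hC : IsVariationalSet 2 p k C)
    {J : Finset (Fin k)} {τ : Fin 2 → (Fin p ≃ ZMod p)}
    {σ : Fin k → (Fin p ≃ ZMod p)} {a : Fin k → Fin 2 → ZMod p}
    (hl : ∀ j ∈ J, ∀ x, σ j (C j x) = ∑ i, a j i * τ i (x i))
    (hJ : (p - 3) / 2 ≤ J.card) (k0 : Fin k) (hk0 : k0 ∉ J) :
    ∃ (s : Fin p ≃ ZMod p) (b : Fin 2 → ZMod p), ∀ x, s (C k0 x) = ∑ i, b i * τ i (x i) := by
  classical
  have hform : ∀ j ∈ J, ∀ y : Fin 2 → ZMod p, σ j (C j (cell τ y)) = a j 0 * y 0 + a j 1 * y 1 := by
    intro j hj y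
    rw [hl j hj, Fin.sum_univ_two]
    simp [cell]
  have ha : ∀ j ∈ J, a j 0 ≠ 0 ∧ a j 1 ≠ 0 := by
    intro j hj
    constructor
    · intro h0
      have := perm_inj hC τ j 0 ![0, 0] (s := 0) (t := 1) (by
        apply (σ j).injective
        rw [hform j hj, hform j hj, h0]; simp)
      exact zero_ne_one this
    · intro h0
      have := perm_inj hC τ j 1 ![0, 0] (s := 0) (t := 1) (by
        apply (σ j).injective
        rw [hform j hj, hform j hj, h0]; simp)
      exact zero_ne_one this
  have hdet : ∀ r ∈ J, ∀ r' ∈ J, r ≠ r' → a r 0 * a r' 1 ≠ a r 1 * a r' 0 := by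
    intro r hr r' hr' hne hd
    obtain ⟨s, t, hst, e1, e2⟩ := exists_kernel (a r 0, a r 1) (a r' 0, a r' 1) hd
    simp only at e1 e2
    have hinj : Injective ![r, r'] := by
      intro x y hxy
      fin_cases x <;> fin_cases y <;> simp_all
    have := inj_of hC τ ![r, r'] hinj (y := ![s, t]) (y' := ![0, 0]) (by
      intro l
      fin_cases l
      · apply (σ r).injective
        change σ r (C r (cell τ ![s, t])) = σ r (C r (cell τ ![0, 0]))
        rw [hform r hr, hform r hr]
        simp only [Matrix.cons_val_zero, Matrix.cons_val_one]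
        rw [e1]; ring
      · apply (σ r').injective
        change σ r' (C r' (cell τ ![s, t])) = σ r' (C r' (cell τ ![0, 0]))
        rw [hform r' hr', hform r' hr']
        simp only [Matrix.cons_val_zero, Matrix.cons_val_one]
        rw [e2]; ring)
    have h0 := congrFun this 0
    have h1 := congrFun this 1
    simp only [Matrix.cons_val_zero, Matrix.cons_val_one] at h0 h1
    rcases hst with h | h
    · exact h h0
    · exact h h1
  set w : Fin k → ZMod p × ZMod p := fun r => (a r 0, a r 1) with hw
  have hwinj : Set.InjOn w (J : Set (Fin k)) := by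
    intro r hr r' hr' h
    by_contra hne
    have h0 : a r 0 = a r' 0 := congrArg Prod.fst h
    have h1 : a r 1 = a r' 1 := congrArg Prod.snd h
    apply hdet r hr r' hr' hne
    rw [h0, h1]; ring
  set W : Finset (ZMod p × ZMod p) := insert (1, 0) (insert (0, 1) (J.image w)) with hW
  have hn1 : ((0 : ZMod p), (1 : ZMod p)) ∉ J.image w := by
    intro h
    obtain ⟨r, hr, h⟩ := Finset.mem_image.1 h
    exact (ha r hr).1 (congrArg Prod.fst h)
  have hn0 : ((1 : ZMod p), (0 : ZMod p)) ∉ insert ((0 : ZMod p), (1 : ZMod p)) (J.image w) := by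
    intro h
    rcases Finset.mem_insert.1 h with h | h
    · exact one_ne_zero (congrArg Prod.fst h)
    · obtain ⟨r, hr, h⟩ := Finset.mem_image.1 h
      exact (ha r hr).2 (congrArg Prod.snd h)
  have hcard : (p + 1) / 2 ≤ W.card := by
    rw [hW, Finset.card_insert_of_notMem hn0, Finset.card_insert_of_notMem hn1,
      Finset.card_image_of_injOn hwinj]
    omega
  set e0 : Fin p ≃ ZMod p := τ 0 with he0
  obtain ⟨s, α, β, hs⟩ := hT p hp (fun y z => e0 (C k0 (cell τ ![y, z]))) W hcard (by
    intro x hx x' hx' hne
    rw [hW, Finset.mem_insert, Finset.mem_insert, Finset.mem_image] at hx hx'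
    rcases hx with rfl | rfl | ⟨r, hr, rfl⟩ <;> rcases hx' with rfl | rfl | ⟨r', hr', rfl⟩
    · exact absurd rfl hne
    · simp
    · simpa [hw] using (ha r' hr').2
    · simp
    · exact absurd rfl hne
    · simpa [hw] using (ha r' hr').1.symm
    · simpa [hw] using (ha r hr).2.symm
    · simpa [hw] using (ha r hr).1
    · apply hdet r hr r' hr'
      rintro rfl
      exact hne rfl) (by
    intro x hx y z y' z' h1 h2
    have h2' : C k0 (cell τ ![y, z]) = C k0 (cell τ ![y', z']) := e0.injective h2
    rw [hW, Finset.mem_insert, Finset.mem_insert, Finset.mem_image] at hx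
    rcases hx with rfl | rfl | ⟨r, hr, rfl⟩
    · simp only [one_mul, zero_mul, add_zero] at h1
      subst h1
      refine ⟨rfl, ?_⟩
      apply perm_inj hC τ k0 1 ![y, z]
      have e1 : update ![y, z] 1 z = ![y, z] := by ext l; fin_cases l <;> simp [update]
      have e2 : update ![y, z] 1 z' = ![y, z'] := by ext l; fin_cases l <;> simp [update]
      rw [e1, e2]; exact h2'
    · simp only [one_mul, zero_mul, zero_add] at h1
      subst h1
      refine ⟨?_, rfl⟩
      apply perm_inj hC τ k0 0 ![y, z]
      have e1 : update ![y, z] 0 y = ![y, z] := by ext l; fin_cases l <;> simp [update]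
      have e2 : update ![y, z] 0 y' = ![y', z] := by ext l; fin_cases l <;> simp [update]
      rw [e1, e2]; exact h2'
    · have hne : r ≠ k0 := by rintro rfl; exact hk0 hr
      have hinj : Injective ![r, k0] := by
        intro x y hxy
        fin_cases x <;> fin_cases y <;> simp_all
      have := inj_of hC τ ![r, k0] hinj (y := ![y, z]) (y' := ![y', z']) (by
        intro l
        fin_cases l
        · apply (σ r).injective
          change σ r (C r (cell τ ![y, z])) = σ r (C r (cell τ ![y', z']))
          rw [hform r hr, hform r hr]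
          exact h1
        · exact h2')
      exact ⟨congrFun this 0, congrFun this 1⟩)
  refine ⟨e0.trans s, ![α, β], fun x => ?_⟩
  have := hs (τ 0 (x 0)) (τ 1 (x 1))
  have hx : cell τ ![τ 0 (x 0), τ 1 (x 1)] = x := by
    funext l
    fin_cases l <;> simp [cell]
  rw [hx] at this
  rw [Equiv.trans_apply, this, Fin.sum_univ_two]
  simp

/-- dimension at least three -/
theorem ext_big (hT : S_TWO) (hG : S_GLO) {p m k : ℕ} [Fact p.Prime] (hp : 3 ≤ p) (hm : 3 ≤ m)
    {C : Fin k → (Fin m → Fin p) → Fin p} (hC : IsVariationalSet m p k C)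
    {J : Finset (Fin k)} {τ : Fin m → (Fin p ≃ ZMod p)}
    {σ : Fin k → (Fin p ≃ ZMod p)} {a : Fin k → Fin m → ZMod p}
    (hl : ∀ j ∈ J, ∀ x, σ j (C j x) = ∑ i, a j i * τ i (x i))
    (hJ : m + (p - 3) / 2 ≤ J.card) (k0 : Fin k) (hk0 : k0 ∉ J) :
    ∃ (s : Fin p ≃ ZMod p) (b : Fin m → ZMod p), ∀ x, s (C k0 x) = ∑ i, b i * τ i (x i) := by
  classical
  haveI : NeZero m := ⟨by omega⟩
  -- `m` members
  obtain ⟨e, heJ, he⟩ : ∃ e : Fin m → Fin k, (∀ l, e l ∈ J) ∧ Injective e := by
    have h1 : m ≤ J.card := by omega
    refine ⟨fun l => J.equivFin.symm (Fin.castLE h1 l), fun l => Subtype.coe_prop _, ?_⟩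
    intro x y h
    exact Fin.castLE_injective h1 (J.equivFin.symm.injective (Subtype.coe_injective h))
  -- the forms
  set φ : Fin k → (Fin m → ZMod p) →ₗ[ZMod p] ZMod p := fun r =>
    ∑ i, a r i • LinearMap.proj i with hφ
  have hφa : ∀ r y, φ r y = ∑ i, a r i * y i := by
    intro r y
    simp [hφ]
  have hform : ∀ r ∈ J, ∀ y : Fin m → ZMod p, σ r (C r (cell τ y)) = φ r y := by
    intro r hr y
    rw [hl r hr, hφa]
    simp [cell]
  have hagree : ∀ r ∈ J, ∀ y y' : Fin m → ZMod p, φ r y = φ r y' →
      C r (cell τ y) = C r (cell τ y') := by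
    intro r hr y y' h
    apply (σ r).injective
    rw [hform r hr, hform r hr, h]
  set L : (Fin m → ZMod p) →ₗ[ZMod p] (Fin m → ZMod p) := LinearMap.pi fun l => φ (e l) with hL
  have hLinj : Injective L := by
    intro y y' h
    apply inj_of hC τ e he
    intro l
    apply hagree _ (heJ l)
    exact congrFun h l
  have hLbij : Bijective L := Finite.injective_iff_bijective.1 hLinj
  set E : (Fin m → ZMod p) ≃ₗ[ZMod p] (Fin m → ZMod p) := LinearEquiv.ofBijective L hLbij with hE
  have hEφ : ∀ z l, φ (e l) (E.symm z) = z l := by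
    intro z l
    have : L (E.symm z) = z := E.apply_symm_apply z
    exact congrFun this l
  -- the coordinate `i` direction
  set e0 : Fin p ≃ ZMod p := τ 0 with he0
  set g : (Fin m → ZMod p) → ZMod p := fun z => e0 (C k0 (cell τ (E.symm z))) with hg
  have hne : ∀ l, e l ≠ k0 := fun l h => hk0 (h ▸ heJ l)
  have hginj : ∀ (i : Fin m) (z : Fin m → ZMod p), Injective fun t => g (update z i t) := by
    intro i z s t h
    have h1 : C k0 (cell τ (E.symm (update z i s))) = C k0 (cell τ (E.symm (update z i t))) :=
      e0.injective h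
    have h2 : E.symm (update z i s) = E.symm (update z i t) := by
      apply inj_of hC τ (update e i k0) (update_inj he i fun l _ => hne l)
      intro l
      by_cases hli : l = i
      · subst hli; rw [update_self]; exact h1
      · rw [update_of_ne hli]
        apply hagree _ (heJ l)
        rw [hEφ, hEφ, update_of_ne hli, update_of_ne hli]
    have h3 := congrFun (E.symm.injective h2) i
    simpa using h3
  have hsec : ∀ (i j : Fin m), i ≠ j → ∀ z : Fin m → ZMod p,
      ∃ (s : ZMod p ≃ ZMod p) (α β : ZMod p),
      ∀ u v, s (g (update (update z i u) j v)) = α * u + β * v := by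
    intro i j hij z
    set R : Finset (Fin k) := J.filter fun r => ∀ l, l ≠ i → l ≠ j → e l ≠ r with hR
    set w : Fin k → ZMod p × ZMod p := fun r =>
      (φ r (E.symm (Pi.single i 1)), φ r (E.symm (Pi.single j 1))) with hw
    have hpt : ∀ u v : ZMod p, update (update z i u) j v =
        update (update z i 0) j 0 + u • Pi.single i 1 + v • Pi.single j 1 := by
      intro u v
      funext l
      by_cases h1 : l = j
      · subst h1
        simp [Pi.single_apply, Ne.symm hij]
      · by_cases h2 : l = i
        · subst h2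
          simp [update_of_ne hij, Pi.single_apply, hij]
        · simp [update_of_ne h1, update_of_ne h2, Pi.single_apply, h1, h2]
    have hval : ∀ r u v, φ r (E.symm (update (update z i u) j v)) =
        φ r (E.symm (update (update z i 0) j 0)) + ((w r).1 * u + (w r).2 * v) := by
      intro r u v
      rw [hpt u v, map_add, map_add, map_smul, map_smul, map_add, map_add, map_smul, map_smul, hw]
      simp only [smul_eq_mul]
      ring
    have hoth : ∀ l, l ≠ i → l ≠ j → ∀ u v u' v',
        C (e l) (cell τ (E.symm (update (update z i u) j v))) =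
          C (e l) (cell τ (E.symm (update (update z i u') j v'))) := by
      intro l h1 h2 u v u' v'
      apply hagree _ (heJ l)
      rw [hEφ, hEφ, update_of_ne h2, update_of_ne h1, update_of_ne h2, update_of_ne h1]
    -- two different indices
    have hpair : ∀ r r' : Fin k, r ≠ r' → (∀ l, l ≠ i → l ≠ j → e l ≠ r) →
        (∀ l, l ≠ i → l ≠ j → e l ≠ r') → ∀ u v u' v' : ZMod p,
        C r (cell τ (E.symm (update (update z i u) j v))) =
          C r (cell τ (E.symm (update (update z i u') j v'))) →
        C r' (cell τ (E.symm (update (update z i u) j v))) =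
          C r' (cell τ (E.symm (update (update z i u') j v'))) → u = u' ∧ v = v' := by
      intro r r' hrr h1 h2 u v u' v' e1 e2
      have hinj : Injective (update (update e i r) j r') := by
        intro x y hxy
        by_cases hxj : x = j <;> by_cases hyj : y = j
        · rw [hxj, hyj]
        · exfalso
          rw [hxj, update_self, update_of_ne hyj] at hxy
          by_cases hyi : y = i
          · rw [hyi, update_self] at hxy; exact hrr hxy.symm
          · rw [update_of_ne hyi] at hxy; exact h2 y hyi hyj hxy.symm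
        · exfalso
          rw [hyj, update_self, update_of_ne hxj] at hxy
          by_cases hxi : x = i
          · rw [hxi, update_self] at hxy; exact hrr hxy
          · rw [update_of_ne hxi] at hxy; exact h2 x hxi hxj hxy
        · rw [update_of_ne hxj, update_of_ne hyj] at hxy
          by_cases hxi : x = i <;> by_cases hyi : y = i
          · rw [hxi, hyi]
          · rw [hxi, update_self, update_of_ne hyi] at hxy
            exact absurd hxy.symm (h1 y hyi hyj)
          · rw [hyi, update_self, update_of_ne hxi] at hxy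
            exact absurd hxy (h1 x hxi hxj)
          · rw [update_of_ne hxi, update_of_ne hyi] at hxy
            exact he hxy
      have h3 : E.symm (update (update z i u) j v) = E.symm (update (update z i u') j v') := by
        apply inj_of hC τ _ hinj
        intro l
        by_cases hlj : l = j
        · rw [hlj, update_self]; exact e2
        · rw [update_of_ne hlj]
          by_cases hli : l = i
          · rw [hli, update_self]; exact e1
          · rw [update_of_ne hli]; exact hoth l hli hlj u v u' v'
      have h4 := E.symm.injective h3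
      have h5 := congrFun h4 i
      have h6 := congrFun h4 j
      rw [update_of_ne hij, update_self, update_of_ne hij, update_self] at h5
      rw [update_self, update_self] at h6
      exact ⟨h5, h6⟩
    have hdet : ∀ r ∈ R, ∀ r' ∈ R, r ≠ r' → (w r).1 * (w r').2 ≠ (w r).2 * (w r').1 := by
      intro r hr r' hr' hrr hd
      rw [hR, Finset.mem_filter] at hr hr'
      obtain ⟨u, v, huv, e1, e2⟩ := exists_kernel (w r) (w r') hd
      have := hpair r r' hrr hr.2 hr'.2 u v 0 0
        (hagree r hr.1 _ _ (by rw [hval r u v, e1, add_zero]))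
        (hagree r' hr'.1 _ _ (by rw [hval r' u v, e2, add_zero]))
      rcases huv with h | h
      · exact h this.1
      · exact h this.2
    have hwinj : Set.InjOn w (R : Set (Fin k)) := by
      intro r hr r' hr' h
      by_contra hne'
      apply hdet r hr r' hr' hne'
      rw [h]; ring
    have hRcard : (p + 1) / 2 ≤ (R.image w).card := by
      rw [Finset.card_image_of_injOn hwinj]
      have hsub : J \ R ⊆ (Finset.univ \ {i, j}).image e := by
        intro r hr
        rw [Finset.mem_sdiff, hR, Finset.mem_filter] at hr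
        obtain ⟨h1, h2⟩ := hr
        have h3 : ¬ ∀ l, l ≠ i → l ≠ j → e l ≠ r := fun h => h2 ⟨h1, h⟩
        push Not at h3
        obtain ⟨l, hli, hlj, hlr⟩ := h3
        rw [Finset.mem_image]
        exact ⟨l, by simp [hli, hlj], hlr⟩
      have h1 := Finset.card_le_card hsub
      have h2 : ((Finset.univ \ {i, j} : Finset (Fin m)).image e).card ≤ m - 2 := by
        refine Finset.card_image_le.trans ?_
        rw [Finset.card_sdiff_of_subset (Finset.subset_univ _), Finset.card_univ, Fintype.card_fin,
          Finset.card_pair hij]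
      have h3 : (J \ R).card = J.card - R.card :=
        Finset.card_sdiff_of_subset (Finset.filter_subset _ _)
      omega
    obtain ⟨s, α, β, hs⟩ := hT p hp (fun u v => g (update (update z i u) j v)) (R.image w) hRcard
      (by
        intro x hx x' hx' hne'
        obtain ⟨r, hr, rfl⟩ := Finset.mem_image.1 hx
        obtain ⟨r', hr', rfl⟩ := Finset.mem_image.1 hx'
        exact hdet r hr r' hr' (by rintro rfl; exact hne' rfl))
      (by
        intro x hx u v u' v' e1 e2
        obtain ⟨r, hr, rfl⟩ := Finset.mem_image.1 hx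
        rw [hR, Finset.mem_filter] at hr
        refine hpair r k0 (by rintro rfl; exact hk0 hr.1) hr.2 (fun l _ _ => hne l) u v u' v' ?_
          (e0.injective e2)
        apply hagree r hr.1
        rw [hval r u v, hval r u' v', e1])
    exact ⟨s, α, β, hs⟩
  obtain ⟨s, b, hs⟩ := hG p m (by omega) g hginj hsec
  refine ⟨e0.trans s, fun i => ∑ l, b l * a (e l) i, fun x => ?_⟩
  set y : Fin m → ZMod p := fun i => τ i (x i) with hy
  have hx : cell τ y = x := by
    funext l; simp [cell, hy]
  have h1 : g (E y) = e0 (C k0 x) := by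
    rw [hg]
    simp only [LinearEquiv.symm_apply_apply]
    rw [hx]
  rw [Equiv.trans_apply, ← h1, hs]
  have h2 : ∀ l, (E y) l = ∑ i, a (e l) i * y i := by
    intro l
    rw [← hφa]
    rfl
  simp only [h2, Finset.mul_sum, Finset.sum_mul]
  rw [Finset.sum_comm]
  refine Finset.sum_congr rfl fun i _ => Finset.sum_congr rfl fun l _ => ?_
  rw [hy]; ring

theorem s_EXT (hT : S_TWO) (hG : S_GLO) : S_EXT := by
  classical
  intro p _ m k hp hm C hC J τ hlin hJ
  obtain ⟨σ, a, hl⟩ := hlin
  have key : ∀ r : Fin k, ∃ (s : Fin p ≃ ZMod p) (b : Fin m → ZMod p),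
      ∀ x, s (C r x) = ∑ i, b i * τ i (x i) := by
    intro r
    by_cases hr : r ∈ J
    · exact ⟨σ r, a r, hl r hr⟩
    · by_cases h2 : m = 2
      · subst h2
        rw [if_pos rfl] at hJ
        exact ext_two hT hp hC hl hJ r hr
      · rw [if_neg h2] at hJ
        exact ext_big hT hG hp (by omega) hC hl hJ r hr
  choose s b hsb using key
  exact ⟨s, b, fun j _ x => hsb j x⟩

end Pool.Agent.L7h28.VC
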