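import Pool.Agent.L7h21.VC.NL2
import Pool.Agent.L7h18.VC.NL1
import Pool.Agent.L7h18.VC.NL3

/-! Project VC: nonlinear variational sets with many linear members, all dimensions.
Variant of part NL2 (helper21) with free parameters of the coordinate forms. -/

set_option autoImplicit false

open Function Finset Polynomial

namespace Pool.Agent.L7h28.VC

open Pool.Agent.H430R2.PermCubes Pool.Agent.L7h21.VC Pool.Agent.Y347.VL

variable {p : ℕ} [Fact p.Prime] {m : ℕ}

theorem eq_of_evl {y y' : Fin m → ZMod p} {s : Fin m → ZMod p} (hs : Injective s)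
    (h : ∀ i, evl m (s i) y = evl m (s i) y') : y = y' := by
  rw [← sub_eq_zero]
  exact eq_zero_of_evl hs fun i => by rw [map_sub, h i, sub_self]

theorem eq_of_evl_Fn (h1 : S_NL1) (hp3 : 3 ≤ p) (g : ZMod p → ZMod p)
    (hg : ∀ v, IsSquare v → g v = v) (hg' : ∀ v, ¬ IsSquare v → g v = -v) (hm : 2 ≤ m)
    {y y' : Fin m → ZMod p} (i0 : Fin m) {s : Fin m → ZMod p}
    (hs : ∀ i j, i ≠ i0 → j ≠ i0 → s i = s j → i = j) (h0 : ∀ i, i ≠ i0 → s i ≠ 0)
    (hsq : IsSquare (∏ i ∈ Finset.univ.erase i0, s i))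
    (h : ∀ i, i ≠ i0 → evl m (s i) y = evl m (s i) y')
    (hF : Fn g ((-1) ^ (m - 1)) hm y = Fn g ((-1) ^ (m - 1)) hm y') : y = y' := by
  rw [← sub_eq_zero]
  obtain ⟨h2, h3⟩ := coeff_zero_of_evl (p := p) hm (d := y - y') (Finset.univ.erase i0)
    (t := s) (by rw [Finset.card_erase_of_mem (Finset.mem_univ _)]; simp)
    (fun i hii j hjj hij => hs i j (Finset.ne_of_mem_erase hii) (Finset.ne_of_mem_erase hjj) hij)
    (fun i hii => by rw [map_sub, h i (Finset.ne_of_mem_erase hii), sub_self])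
  apply h3
  unfold Fn at hF
  refine h1 p hp3 g hg hg' ((-1) ^ (m - 1)) (neg_one_pow_eq_or _ _)
    (∏ i ∈ Finset.univ.erase i0, s i) ?_ hsq (y' ⟨0, by omega⟩) (y' ⟨m - 1, by omega⟩) _ ?_
  · exact Finset.prod_ne_zero_iff.2 fun i hii => h0 i (Finset.ne_of_mem_erase hii)
  · rw [← h2]
    simp only [Pi.sub_apply]
    rw [add_sub_cancel, add_sub_cancel]
    exact hF

/-- the functions of the cubes -/
def fam (k : ℕ) (t : ℕ → ZMod p) (g : ZMod p → ZMod p) (ε : ZMod p) (hm : 2 ≤ m) (j : Fin (k + 1))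
    (y : Fin m → ZMod p) : ZMod p :=
  if (j : ℕ) < k then evl m (t j) y else Fn g ε hm y

/-- the variational set with free parameters -/
theorem core (h1 : S_NL1) (hp3 : 3 ≤ p) (hm : 2 ≤ m) (k : ℕ) (g : ZMod p → ZMod p)
    (hg : ∀ v, IsSquare v → g v = v) (hg' : ∀ v, ¬ IsSquare v → g v = -v)
    (T : Fin m → ZMod p) (t : ℕ → ZMod p) (hT : Injective T) (hT0 : ∀ i, T i ≠ 0)
    (ht : ∀ i j, i < k → j < k → t i = t j → i = j) (ht0 : ∀ i, i < k → t i ≠ 0)
    (hTt : ∀ i j, j < k → T i ≠ t j) (htq : ∀ i, i < k → IsSquare (t i))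
    (hTq : ∀ i0, IsSquare (∏ i ∈ Finset.univ.erase i0, T i)) :
    ∃ (C : Fin (k + 1) → (Fin m → Fin p) → Fin p) (τ : Fin p ≃ ZMod p) (ε : ZMod p)
      (a : Fin k → Fin m → ZMod p) (u v : Fin m → ZMod p),
      (ε = 1 ∨ ε = -1) ∧ IsVariationalSet m p (k + 1) C ∧
      (∀ j x, τ (C (Fin.castSucc j) x) = ∑ i, a j i * τ (x i)) ∧
      (∀ c d : ZMod p, ∃ y : Fin m → ZMod p, ∑ i, u i * y i = c ∧ ∑ i, v i * y i = d) ∧
      (∀ x, τ (C (Fin.last k) x) = (∑ i, u i * τ (x i)) + g (∑ i, v i * τ (x i))) := by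
  classical
  let ε : ZMod p := (-1) ^ (m - 1)
  have hε : ε = 1 ∨ ε = -1 := neg_one_pow_eq_or _ _
  have hε2 : ε * ε = 1 := by
    rcases hε with h | h <;> rw [h] <;> ring
  let A0 : (Fin m → ZMod p) →ₗ[ZMod p] (Fin m → ZMod p) :=
    LinearMap.pi fun i : Fin m => evl m (T i)
  have hA0 : Injective A0 := by
    intro y y' hyy
    exact eq_of_evl hT fun i => congrFun hyy i
  let A : (Fin m → ZMod p) ≃ₗ[ZMod p] (Fin m → ZMod p) := LinearEquiv.ofInjectiveEndo A0 hA0
  have hA : ∀ w i, evl m (T i) (A.symm w) = w i := by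
    intro w i
    have : A (A.symm w) = w := A.apply_symm_apply w
    exact congrFun this i
  let τ : Fin p ≃ ZMod p := (Fintype.equivFinOfCardEq (ZMod.card p)).symm
  have hlin : ∀ (L : (Fin m → ZMod p) →ₗ[ZMod p] ZMod p) (w : Fin m → ZMod p),
      L w = ∑ i, L (fun j => if i = j then 1 else 0) * w i := by
    intro L w
    rw [LinearMap.pi_apply_eq_sum_univ L w]
    refine Finset.sum_congr rfl fun i _ => ?_
    rw [smul_eq_mul, mul_comm]
  let U : (Fin m → ZMod p) →ₗ[ZMod p] ZMod p :=
    (LinearMap.proj (⟨0, by omega⟩ : Fin m) + ε • LinearMap.proj (⟨m - 1, by omega⟩ : Fin m)) ∘ₗ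
      (A.symm : (Fin m → ZMod p) →ₗ[ZMod p] (Fin m → ZMod p))
  let V : (Fin m → ZMod p) →ₗ[ZMod p] ZMod p :=
    (LinearMap.proj (⟨0, by omega⟩ : Fin m) - ε • LinearMap.proj (⟨m - 1, by omega⟩ : Fin m)) ∘ₗ
      (A.symm : (Fin m → ZMod p) →ₗ[ZMod p] (Fin m → ZMod p))
  let L : Fin k → (Fin m → ZMod p) →ₗ[ZMod p] ZMod p := fun j =>
    evl m (t (j : ℕ)) ∘ₗ (A.symm : (Fin m → ZMod p) →ₗ[ZMod p] (Fin m → ZMod p))
  have hU : ∀ w, U w = A.symm w ⟨0, by omega⟩ + ε * A.symm w ⟨m - 1, by omega⟩ := fun _ => rfl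
  have hV : ∀ w, V w = A.symm w ⟨0, by omega⟩ - ε * A.symm w ⟨m - 1, by omega⟩ := fun _ => rfl
  refine ⟨fun j x => τ.symm (fam k t g ε hm j (A.symm (fun i => τ (x i)))), τ, ε,
    fun j i => L j (fun j' => if i = j' then 1 else 0), fun i => U (fun j' => if i = j' then 1 else 0),
    fun i => V (fun j' => if i = j' then 1 else 0), hε, ⟨?_, ?_⟩, ?_, ?_, ?_⟩
  · -- permutation cubes
    intro j i x
    refine Finite.injective_iff_bijective.1 ?_
    intro r r' hrr
    have h0 : fam k t g ε hm j (A.symm (fun i' => τ (update x i r i'))) =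
        fam k t g ε hm j (A.symm (fun i' => τ (update x i r' i'))) := τ.symm.injective hrr
    have hoth : ∀ i', i' ≠ i → evl m (T i') (A.symm (fun i' => τ (update x i r i'))) =
        evl m (T i') (A.symm (fun i' => τ (update x i r' i'))) := by
      intro i' hi'
      rw [hA, hA, update_of_ne hi', update_of_ne hi']
    have h2 : A.symm (fun i' => τ (update x i r i')) = A.symm (fun i' => τ (update x i r' i')) := by
      unfold fam at h0
      by_cases hj : (j : ℕ) < k
      · rw [if_pos hj, if_pos hj] at h0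
        refine eq_of_evl (s := fun i' => if i' = i then t j else T i') ?_ ?_
        · intro b c hbc
          change (if b = i then t j else T b) = (if c = i then t j else T c) at hbc
          by_cases hb : b = i <;> by_cases hc : c = i
          · rw [hb, hc]
          · rw [if_pos hb, if_neg hc] at hbc
            exact absurd hbc.symm (hTt c j hj)
          · rw [if_neg hb, if_pos hc] at hbc
            exact absurd hbc (hTt b j hj)
          · rw [if_neg hb, if_neg hc] at hbc
            exact hT hbc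
        · intro i'
          by_cases hi' : i' = i
          · rw [if_pos hi']; exact h0
          · rw [if_neg hi']; exact hoth i' hi'
      · rw [if_neg hj, if_neg hj] at h0
        exact eq_of_evl_Fn h1 hp3 g hg hg' hm i (s := T) (fun b c _ _ hbc => hT hbc)
          (fun b _ => hT0 b) (hTq i) hoth h0
    have h3 := congrFun (A.symm.injective h2) i
    simp only [update_self] at h3
    exact τ.injective h3
  · -- variational
    intro e he
    refine Finite.injective_iff_bijective.1 ?_
    intro x x' hxx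
    have h0 : ∀ i, fam k t g ε hm (e i) (A.symm (fun i => τ (x i))) =
        fam k t g ε hm (e i) (A.symm (fun i => τ (x' i))) :=
      fun i => τ.symm.injective (congrFun hxx i)
    have hev : ∀ i, (e i : ℕ) < k → evl m (t (e i)) (A.symm (fun i => τ (x i))) =
        evl m (t (e i)) (A.symm (fun i => τ (x' i))) := by
      intro i hi
      have := h0 i
      unfold fam at this
      rwa [if_pos hi, if_pos hi] at this
    have h2 : A.symm (fun i => τ (x i)) = A.symm (fun i => τ (x' i)) := by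
      by_cases hc : ∀ i, (e i : ℕ) < k
      · refine eq_of_evl (s := fun i => t (e i)) ?_ fun i => hev i (hc i)
        intro b c hbc
        exact he (Fin.ext (ht _ _ (hc b) (hc c) hbc))
      · push Not at hc
        obtain ⟨i0, hi0⟩ := hc
        have hi : ∀ i, i ≠ i0 → (e i : ℕ) < k := by
          intro i hi
          by_contra h2
          apply hi
          apply he
          apply Fin.ext
          have h3 := (e i).2
          have h4 := (e i0).2
          omega
        refine eq_of_evl_Fn h1 hp3 g hg hg' hm i0 (s := fun i => t (e i)) ?_ ?_ ?_ ?_ ?_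
        · intro b c hb hc' hbc
          exact he (Fin.ext (ht _ _ (hi b hb) (hi c hc') hbc))
        · intro b hb
          exact ht0 _ (hi b hb)
        · have hall : ∀ b ∈ Finset.univ.erase i0, IsSquare (t (e b)) :=
            fun b hb => htq _ (hi b (Finset.ne_of_mem_erase hb))
          choose! r hr using hall
          refine ⟨∏ b ∈ Finset.univ.erase i0, r b, ?_⟩
          rw [← Finset.prod_mul_distrib]
          exact Finset.prod_congr rfl hr
        · intro b hb
          exact hev b (hi b hb)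
        · have := h0 i0
          unfold fam at this
          rwa [if_neg (by omega), if_neg (by omega)] at this
    funext i
    exact τ.injective (congrFun (A.symm.injective h2) i)
  · intro j x
    rw [← hlin (L j) (fun i => τ (x i)), τ.apply_symm_apply]
    unfold fam
    rw [if_pos (by rw [Fin.val_castSucc]; exact j.2), Fin.val_castSucc]
    rfl
  · intro c d
    have h2 : (2 : ZMod p) ≠ 0 := by
      have h3 : ((2 : ℕ) : ZMod p) ≠ 0 := by
        rw [Ne, ZMod.natCast_eq_zero_iff]
        intro h4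
        have := Nat.le_of_dvd (by omega) h4
        omega
      exact_mod_cast h3
    let Y : Fin m → ZMod p := fun i => if (i : ℕ) = 0 then (c + d) / 2 else ε * ((c - d) / 2)
    have hY0 : Y ⟨0, by omega⟩ = (c + d) / 2 := if_pos rfl
    have hY1 : Y ⟨m - 1, by omega⟩ = ε * ((c - d) / 2) := if_neg (by simp only; omega)
    refine ⟨A Y, ?_, ?_⟩
    · rw [← hlin U, hU, A.symm_apply_apply, hY0, hY1, ← mul_assoc, hε2, one_mul]
      field_simp
      ring
    · rw [← hlin V, hV, A.symm_apply_apply, hY0, hY1, ← mul_assoc, hε2, one_mul]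
      field_simp
      ring
  · intro x
    rw [← hlin U, ← hlin V, τ.apply_symm_apply]
    unfold fam
    rw [if_neg (by rw [Fin.val_last]; omega)]
    rfl

/-- the parameters: squares for all `m`, or nonsquares as coordinate forms for odd `m` -/
theorem params (hp3 : 3 ≤ p) (m k : ℕ)
    (h : m + k ≤ (p - 1) / 2 ∨ (Odd m ∧ m ≤ (p - 1) / 2 ∧ k ≤ (p - 1) / 2)) :
    ∃ (T : Fin m → ZMod p) (t : ℕ → ZMod p), Injective T ∧ (∀ i, T i ≠ 0) ∧
      (∀ i j, i < k → j < k → t i = t j → i = j) ∧ (∀ i, i < k → t i ≠ 0) ∧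
      (∀ i j, j < k → T i ≠ t j) ∧ (∀ i, i < k → IsSquare (t i)) ∧
      (∀ i0, IsSquare (∏ i ∈ Finset.univ.erase i0, T i)) := by
  classical
  rcases h with h | ⟨hodd, hm, hk⟩
  · refine ⟨fun i => tq p (i : ℕ), fun j => tq p (m + j), ?_, ?_, ?_, ?_, ?_, ?_, ?_⟩
    · intro i j hij
      exact Fin.ext (tq_inj (by have := i.2; omega) (by have := j.2; omega) hij)
    · intro i
      exact pow_ne_zero 2 (tq_ne (by have := i.2; omega))
    · intro i j hi hj hij
      have := tq_inj (p := p) (i := m + i) (j := m + j) (by omega) (by omega) hij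
      omega
    · intro i hi
      exact pow_ne_zero 2 (tq_ne (by omega))
    · intro i j hj hij
      have h1 := i.2
      have := tq_inj (p := p) (i := (i : ℕ)) (j := m + j) (by omega) (by omega) hij
      omega
    · intro i _
      exact ⟨_, sq _⟩
    · intro i0
      refine ⟨∏ i ∈ Finset.univ.erase i0, (((i : ℕ) : ZMod p) + 1), ?_⟩
      rw [← Finset.prod_mul_distrib]
      refine Finset.prod_congr rfl fun i _ => ?_
      unfold tq
      ring
  · obtain ⟨n, hn⟩ : ∃ n : ZMod p, ¬ IsSquare n := by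
      have h2 : ringChar (ZMod p) ≠ 2 := by
        rw [ZMod.ringChar_zmod_n]; omega
      exact FiniteField.exists_nonsquare h2
    have hn0 : n ≠ 0 := by
      rintro rfl
      exact hn ⟨0, by simp⟩
    refine ⟨fun i => n * tq p (i : ℕ), fun j => tq p j, ?_, ?_, ?_, ?_, ?_, ?_, ?_⟩
    · intro i j hij
      exact Fin.ext (tq_inj (by have := i.2; omega) (by have := j.2; omega)
        (mul_left_cancel₀ hn0 hij))
    · intro i
      exact mul_ne_zero hn0 (pow_ne_zero 2 (tq_ne (by have := i.2; omega)))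
    · intro i j hi hj hij
      exact tq_inj (by omega) (by omega) hij
    · intro i hi
      exact pow_ne_zero 2 (tq_ne (by omega))
    · intro i j hj hij
      apply hn
      have h1 : ((i : ℕ) : ZMod p) + 1 ≠ 0 := tq_ne (by have := i.2; omega)
      refine ⟨((j : ZMod p) + 1) / (((i : ℕ) : ZMod p) + 1), ?_⟩
      have h2 : n * (((i : ℕ) : ZMod p) + 1) ^ 2 = ((j : ZMod p) + 1) ^ 2 := hij
      field_simp
      linear_combination h2
    · intro i _
      exact ⟨_, sq _⟩
    · intro i0
      obtain ⟨r, hr⟩ := hodd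
      refine ⟨n ^ r * ∏ i ∈ Finset.univ.erase i0, (((i : ℕ) : ZMod p) + 1), ?_⟩
      rw [Finset.prod_mul_distrib, Finset.prod_const, Finset.card_erase_of_mem (Finset.mem_univ _),
        Finset.card_univ, Fintype.card_fin]
      have h1 : m - 1 = r + r := by omega
      rw [h1, pow_add]
      have h2 : ∏ i ∈ Finset.univ.erase i0, tq p (i : ℕ) =
          (∏ i ∈ Finset.univ.erase i0, (((i : ℕ) : ZMod p) + 1)) *
            ∏ i ∈ Finset.univ.erase i0, (((i : ℕ) : ZMod p) + 1) := by
        rw [← Finset.prod_mul_distrib]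
        refine Finset.prod_congr rfl fun i _ => ?_
        unfold tq
        ring
      rw [h2]
      ring

theorem nonlinear (hp3 : 3 ≤ p) (m k : ℕ) (hm : 2 ≤ m) (hk : 1 ≤ k)
    (h : m + k ≤ (p - 1) / 2 ∨ (Odd m ∧ m ≤ (p - 1) / 2 ∧ k ≤ (p - 1) / 2)) :
    ∃ (C : Fin (k + 1) → (Fin m → Fin p) → Fin p) (J : Finset (Fin (k + 1)))
      (τ : Fin m → (Fin p ≃ ZMod p)), IsVariationalSet m p (k + 1) C ∧
      LinearOn p m (k + 1) C J τ ∧ J.card = k ∧ ¬ IsLinear (ZMod p) m p (k + 1) C := by
  classical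
  obtain ⟨T, t, h1, h2, h3, h4, h5, h6, h7⟩ := params (p := p) hp3 m k h
  let g : ZMod p → ZMod p := fun v => if IsSquare v then v else -v
  have hg : ∀ v, IsSquare v → g v = v := fun v hv => if_pos hv
  have hg' : ∀ v, ¬ IsSquare v → g v = -v := fun v hv => if_neg hv
  obtain ⟨C, τ, ε, a, u, v, -, hC, hlin, hsur, hlast⟩ :=
    core Pool.Agent.L7h18.VC.s_NL1 hp3 hm k g hg hg' T t h1 h2 h3 h4 h5 h6 h7
  refine ⟨C, Finset.univ.erase (Fin.last k), fun _ => τ, hC, ?_, ?_, ?_⟩
  · refine ⟨fun _ => τ, fun j => if hj : (j : ℕ) < k then a ⟨j, hj⟩ else 0, ?_⟩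
    intro j hj x
    have hjk : (j : ℕ) < k := by
      have h8 := j.2
      have h9 : (j : ℕ) ≠ k := by
        intro h10
        exact (Finset.ne_of_mem_erase hj) (Fin.ext h10)
      omega
    have h11 := hlin ⟨j, hjk⟩ x
    simp only [dif_pos hjk]
    exact h11
  · rw [Finset.card_erase_of_mem (Finset.mem_univ _), Finset.card_univ, Fintype.card_fin]
    omega
  · exact Pool.Agent.L7h18.VC.s_NL3 p m k hp3 hm hk g hg hg' C τ a u v hC hlin hsur hlast

end Pool.Agent.L7h28.VC
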