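import Pool.Agent.Y347.VL.Defs

set_option autoImplicit false

/-!
# Project VC (MP_c7a479_co): prime order, variational sets with many linear members

Statements of the parts with full proofs in the docstrings. `p` is an odd prime, `F = ZMod p`.
-/

namespace Pool.Agent.L7h28.VC

open Pool.Agent.H430R2.PermCubes Pool.Agent.Y347.VL

/-- the members `C j`, `j ∈ J`, are linear over `ZMod p` for ONE relabelling `τ` of the
coordinates (as in `IsLinear`, restricted to `J`) -/
def LinearOn (p m k : ℕ) (C : Fin k → (Fin m → Fin p) → Fin p) (J : Finset (Fin k))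
    (τ : Fin m → (Fin p ≃ ZMod p)) : Prop :=
  ∃ (σ : Fin k → (Fin p ≃ ZMod p)) (a : Fin k → Fin m → ZMod p),
    ∀ j ∈ J, ∀ x, σ j (C j x) = ∑ i, a j i * τ i (x i)

/-- [LS] (Lovász–Schrijver) A function `g` on `F` such that `g t + s t` is a permutation for at
least `(p - 1) / 2` values of `s` is affine.
Proof. For `1 ≤ j ≤ (p-1)/2` the polynomial `Q_j(s) = ∑_t (g t + s t)^j` vanishes on `S`
(permutation, and `∑_t t^j = 0` as `j < p - 1`); its coefficient of `s^j` is `∑_t t^j = 0`, so the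
degree is `≤ j - 1 < #S` and all coefficients `C(j,b) ∑_t t^(j-b) g(t)^b` vanish, i.e.
`∑_t t^a g(t)^b = 0` for all `a + b ≤ (p-1)/2`. Let `G` be the interpolation polynomial of `g`,
`natDegree = d ≤ p - 1`. If `d ≥ 2` put `b = (p-1)/d`, `a = (p-1) % d`; then `a + b ≤ (p-1)/2`
(if `d = 2` then `a = 0`; if `b = 1` then `a ≠ d - 1` since `p - 1` is even; else
`a ≤ d - 1 ≤ b (d - 2)`), and `X^a G^b` has degree exactly `p - 1`, so `∑_t t^a g(t)^b` is minus
its leading coefficient, not zero. Contradiction. -/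
def S_LS : Prop :=
  ∀ (p : ℕ) [Fact p.Prime], 3 ≤ p → ∀ (g : ZMod p → ZMod p) (S : Finset (ZMod p)),
    (p - 1) / 2 ≤ S.card → (∀ s ∈ S, Function.Injective fun t => g t + s * t) →
    ∃ α β : ZMod p, ∀ t, g t = α + β * t

/-- [TWO] A function `f` of two variables that is injective on all lines of at least `(p+1)/2`
parallel classes is a relabelled linear form.
Proof. `W` is not empty and its members are not zero (a zero `w` makes `f` injective on `F²`).
For every `v` the level set `A_v = {f = v}` has exactly one point on each line `w = c` (`w ∈ W`;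
`f` is injective, hence bijective on these `p` points), so `#A_v = p` and every `w ∈ W` is a
bijection `A_v → F`. Fix `w0 ∈ W` and `w1` independent of `w0`. `A_v` is a graph `w1 = g(w0)`;
every other `w ∈ W` is `λ w0 + μ w1` with `μ ≠ 0`, and `g t + (λ/μ) t` is injective; the `λ/μ` are
distinct. By `S_LS`, `g` is affine, so `A_v` is a line `{w1 - β_v w0 = α_v}`. Different level sets
are disjoint, so all `β_v` are equal to one `β` (lines with different slopes meet), `v ↦ α_v` is
injective, hence a bijection, `σ v = α_v`, and `σ (f y z) = w1 (y,z) - β w0 (y,z)`. -/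
def S_TWO : Prop :=
  ∀ (p : ℕ) [Fact p.Prime], 3 ≤ p → ∀ (f : ZMod p → ZMod p → ZMod p)
    (W : Finset (ZMod p × ZMod p)), (p + 1) / 2 ≤ W.card →
    (∀ w ∈ W, ∀ w' ∈ W, w ≠ w' → w.1 * w'.2 ≠ w.2 * w'.1) →
    (∀ w ∈ W, ∀ y z y' z' : ZMod p, w.1 * y + w.2 * z = w.1 * y' + w.2 * z' →
      f y z = f y' z' → y = y' ∧ z = z') →
    ∃ (σ : ZMod p ≃ ZMod p) (α β : ZMod p), ∀ y z, σ (f y z) = α * y + β * z

/-- [GLO] Globalization: if all two-dimensional coordinate sections of `f` are relabelled linear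
forms then so is `f`.
Proof. Put `e(t) = f(0,..,t,..,0)` (coordinate `0`), a bijection, and replace `f` by `e⁻¹ ∘ f`
(hypotheses are kept), so `f(t e_0) = t`. (1) For `i ≠ j` and `y` there is `γ ≠ 0` with
`f(y[i:=s, j:=t]) = f(y[i:=s+γt, j:=0])` for all `s, t` (`γ = β/α`; `α, β ≠ 0` by injectivity).
(2) By induction on the support of `y` outside `0`: there is `H(y)` with `f(y[0:=s]) = s + H(y)`
for all `s`. (3) So for `i ≠ 0`: `f(y[i:=s]) = f(y[i:=0]) + γ s` with `γ` independent of `y 0` and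
`y i`. (4) For `i ≠ j`, both `≠ 0`: with `A = f(y[i:=0,j:=0])`, `f(y[i:=s,j:=0]) = A + γ s`,
`f(y[i:=s,j:=t]) = f(y[i:=s+δt,j:=0]) = A + γ s + γ δ t`, so
`f(y[i:=s,j:=t]) - f(y[i:=s,j:=0])` does not depend on `s`. (5) With `c_j = f(e_j)`, induction on
the support gives `f(y) - f(y[j:=0]) = c_j y_j` for all `y` and `j ≠ 0`, and then
`f(y) = y_0 + ∑_{j ≠ 0} c_j y_j`. -/
def S_GLO : Prop :=
  ∀ (p : ℕ) [Fact p.Prime] (m : ℕ), 2 ≤ m → ∀ f : (Fin m → ZMod p) → ZMod p,
    (∀ (i : Fin m) (y : Fin m → ZMod p),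
      Function.Injective fun t => f (Function.update y i t)) →
    (∀ (i j : Fin m), i ≠ j → ∀ y : Fin m → ZMod p, ∃ (σ : ZMod p ≃ ZMod p) (α β : ZMod p),
      ∀ s t, σ (f (Function.update (Function.update y i s) j t)) = α * s + β * t) →
    ∃ (σ : ZMod p ≃ ZMod p) (a : Fin m → ZMod p), ∀ y, σ (f y) = ∑ i, a i * y i

/-- [NL1] The nonlinear function. `ε = ±1`, `G` the nonzero squares, `g v = v` for `v` a square
(or `0`) and `g v = - v` otherwise; `F(y,z) = (y + ε z) + g (y - ε z)` is injective in every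
direction `(ε π, 1)` with `π` a nonzero square.
Proof. Let `D ≠ 0`, `v = y - ε z`, `v' = v + ε (π - 1) D`, `U = ε (π + 1) D` and suppose
`U + g v' - g v = 0`. If `v, v'` are both squares or `0`: `U + (v' - v) = 2 ε π D ≠ 0`. If both are
nonsquares or `0`: `U - (v' - v) = 2 ε D ≠ 0`. If `v` is a nonzero square and `v'` a nonsquare:
`U = v + v'`, so `v' = ε π D`, `v = ε D`, `v' = π v`, a contradiction; the last case is the same. -/
def S_NL1 : Prop :=
  ∀ (p : ℕ) [Fact p.Prime], 3 ≤ p → ∀ (g : ZMod p → ZMod p),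
    (∀ v, IsSquare v → g v = v) → (∀ v, ¬ IsSquare v → g v = -v) →
    ∀ ε : ZMod p, (ε = 1 ∨ ε = -1) → ∀ q : ZMod p, q ≠ 0 → IsSquare q →
    ∀ y z D : ZMod p,
      (y + ε * q * D + ε * (z + D)) + g (y + ε * q * D - ε * (z + D)) =
        (y + ε * z) + g (y - ε * z) → D = 0

/-- [NL2] The variational set with one nonlinear member. Let `m ≥ 2`, `m + k = (p-1)/2`.
There are `k + 1` cubes, the first `k` of which are linear, and the last one is
`x ↦ F(y_0, y_(m-1))`.
Proof. Take the `(p-1)/2` nonzero squares as `t : Fin (m + k) → F` (injective, all nonzero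
squares). The vectors `a_t = (1, t, …, t^(m-1))` are such that any `m` different ones are a basis
(Vandermonde). Let `A : y ↦ (a_(t i) · y)_(i < m)`, a linear bijection of `F^m`, and
`x = A y`. The cubes: `C_j x = a_(t (m+j)) · A⁻¹ x` for `j < k` and
`C_k x = F(y_0, y_(m-1))`, `y = A⁻¹ x`, `F` from `S_NL1` with `ε = (-1)^(m-1)`. If `y ≠ y'` agree on
`m - 1` of the forms `a_t` then `y' - y` is the coefficient vector of `c ∏ (T - t_i)`, so with
`D = y'_(m-1) - y_(m-1) ≠ 0`, `y'_0 - y_0 = ε (∏ t_i) D`; by `S_NL1` the values of `F` differ.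
So any `m` of the `m + k` forms and `F` are jointly injective, which gives both the permutation
cube property (`x_i` are the forms `a_(t i)`) and the variational property. -/
def S_NL2 : Prop :=
  ∀ (p : ℕ) [Fact p.Prime] (m k : ℕ), 2 ≤ m → m + k = (p - 1) / 2 →
    ∀ (g : ZMod p → ZMod p), (∀ v, IsSquare v → g v = v) → (∀ v, ¬ IsSquare v → g v = -v) →
    ∃ (C : Fin (k + 1) → (Fin m → Fin p) → Fin p) (τ : Fin p ≃ ZMod p) (ε : ZMod p)
      (a : Fin k → Fin m → ZMod p) (u v : Fin m → ZMod p),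
      (ε = 1 ∨ ε = -1) ∧ IsVariationalSet m p (k + 1) C ∧
      (∀ j x, τ (C (Fin.castSucc j) x) = ∑ i, a j i * τ (x i)) ∧
      (∀ c d : ZMod p, ∃ y : Fin m → ZMod p, ∑ i, u i * y i = c ∧ ∑ i, v i * y i = d) ∧
      (∀ x, τ (C (Fin.last k) x) = (∑ i, u i * τ (x i)) + g (∑ i, v i * τ (x i)))

/-- [NL3] It is not linear for any relabelling, if it has at least one linear member (`1 ≤ k`).
Proof. Suppose the family is linear for the relabellings `τ'`. The first cube is the linear form
`a_0` with nonzero coefficients (permutation cube); so `σ (∑ a_0i x_i) = ∑ b_i τ'_i(x_i)`; with all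
`x_i = 0` except two this gives `σ(r + s) - σ(r) - σ(s) + σ(0) = 0`, so `σ - σ 0` is additive, hence
linear on `ZMod p`, the `b_i` are not zero, and the `τ'_i` are affine. Then `σ' (C_last x)` is an
affine function `h` of the labels, `h(y) = h(y')` iff the values `u·y + g(v·y)` agree. For
`(u·y, v·y) = (0,0), (-1,1), (n,n)` (`n` a nonsquare) the value is `0`. So the linear part of `h`
kills `y` with `(u·y, v·y) = (-1,1)` and with `(n,n)`, also with `(1,1)`, hence with `(0,2)` and
`(2,0)`; but the values of `u·y + g(v·y)` at `(0,0)` and `(2,0)` differ. Contradiction. -/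
def S_NL3 : Prop :=
  ∀ (p : ℕ) [Fact p.Prime] (m k : ℕ), 3 ≤ p → 2 ≤ m → 1 ≤ k →
    ∀ (g : ZMod p → ZMod p), (∀ v, IsSquare v → g v = v) → (∀ v, ¬ IsSquare v → g v = -v) →
    ∀ (C : Fin (k + 1) → (Fin m → Fin p) → Fin p) (τ : Fin p ≃ ZMod p)
      (a : Fin k → Fin m → ZMod p) (u v : Fin m → ZMod p),
      IsVariationalSet m p (k + 1) C →
      (∀ j x, τ (C (Fin.castSucc j) x) = ∑ i, a j i * τ (x i)) →
      (∀ c d : ZMod p, ∃ y : Fin m → ZMod p, ∑ i, u i * y i = c ∧ ∑ i, v i * y i = d) →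
      (∀ x, τ (C (Fin.last k) x) = (∑ i, u i * τ (x i)) + g (∑ i, v i * τ (x i))) →
      ¬ IsLinear (ZMod p) m p (k + 1) C

/-- [EXT] (helper28) one more member is linear too: `S_TWO → S_GLO → S_EXT` -/
def S_EXT : Prop :=
  ∀ (p : ℕ) [Fact p.Prime] (m k : ℕ), 3 ≤ p → 2 ≤ m →
    ∀ (C : Fin k → (Fin m → Fin p) → Fin p), IsVariationalSet m p k C →
    ∀ (J : Finset (Fin k)) (τ : Fin m → (Fin p ≃ ZMod p)), LinearOn p m k C J τ →
      (if m = 2 then (p - 3) / 2 else m + (p - 3) / 2) ≤ J.card →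
      LinearOn p m k C Finset.univ τ

end Pool.Agent.L7h28.VC
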